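import Pool.Agent.Y421.SZ.Core
import Pool.Agent.Y911.AA.Main

set_option autoImplicit false

/-!
# Counting the invariants `j` by `radJ`
-/

namespace Pool.Agent.Y421.SZ

open Pool.Agent.Results.MP_1ea25c_nt.AlmostAllTriples in
/-- SZ1: there are about `X ^ (2/3)` invariants `j` with `radJ j ≤ X`, and for almost all of them
`radJ j` is almost the cube of the height. -/
theorem t : Pool.Agent.Y728.SZ.StmtCount := by
  obtain ⟨κ, hκ, h1, h2⟩ := Pool.Agent.Y911.AA.main
  exact core Pool.Agent.Y911.AA.triples_finite' ⟨κ, hκ, h1⟩ h2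

end Pool.Agent.Y421.SZ
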