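import Pool.Agent.Y728.SZ.Def

set_option autoImplicit false

/-!
# Counting the invariants `j` by `radJ`: elementary part

The invariants `j ≠ 0, 1728` are `1728 q`, `q` one of the six ratios of an abc triple.
-/

namespace Pool.Agent.Y421.SZ

open Pool.Agent.Y728.SZ Filter Topology

/-- all abc triples of radical at most `X` -/
def tri (X : ℝ) : Set (ℕ × ℕ) :=
  {p | 0 < p.1 ∧ p.1 ≤ p.2 ∧ Nat.Coprime p.1 p.2 ∧
    (radical (p.1 * p.2 * (p.1 + p.2)) : ℝ) ≤ X}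

theorem radical_pos (n : ℕ) : 0 < radical n :=
  Finset.prod_pos fun _ hq => (Nat.prime_of_mem_primeFactors hq).pos

theorem radical_le {A B : ℕ} (hB : B ≠ 0) (h : ∀ p : ℕ, p.Prime → 5 ≤ p → p ∣ A → p ∣ B) :
    radical A ≤ 6 * radical B := by
  classical
  have hsub : A.primeFactors ⊆ ({2, 3} : Finset ℕ) ∪ B.primeFactors := by
    intro p hp
    have hpp := Nat.prime_of_mem_primeFactors hp
    have hpd := Nat.dvd_of_mem_primeFactors hp
    rw [Finset.mem_union]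
    by_cases h5 : 5 ≤ p
    · exact Or.inr (Nat.mem_primeFactors.2 ⟨hpp, h p hpp h5 hpd, hB⟩)
    · left
      have h2 := hpp.two_le
      interval_cases p
      · simp
      · simp
      · exact absurd hpp (by norm_num)
  calc radical A ≤ ∏ p ∈ ({2, 3} : Finset ℕ) ∪ B.primeFactors, p := by
        refine Finset.prod_le_prod_of_subset_of_one_le' hsub (fun p hp _ => ?_)
        rcases Finset.mem_union.1 hp with hp | hp
        · simp only [Finset.mem_insert, Finset.mem_singleton] at hp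
          omega
        · exact (Nat.prime_of_mem_primeFactors hp).one_le
    _ ≤ (∏ p ∈ ({2, 3} : Finset ℕ), p) * ∏ p ∈ B.primeFactors, p := by
        rw [← Finset.prod_union_inter]
        refine Nat.le_mul_of_pos_right _ (Finset.prod_pos fun p hp => ?_)
        exact (Nat.prime_of_mem_primeFactors (Finset.mem_inter.1 hp).2).pos
    _ = 6 * radical B := by
        rw [Finset.prod_pair (by norm_num)]
        rfl

theorem eqs {j q : ℚ} (h : j = 1728 * q) :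
    j.num * (q.den : ℤ) = 1728 * q.num * (j.den : ℤ) := by
  have h1 : (j.num : ℚ) = j * j.den := (Rat.mul_den_eq_num j).symm
  have h2 : (q.num : ℚ) = q * q.den := (Rat.mul_den_eq_num q).symm
  have : ((j.num * (q.den : ℤ) : ℤ) : ℚ) = ((1728 * q.num * (j.den : ℤ) : ℤ) : ℚ) := by
    push_cast
    rw [h1, h2, h]
    ring
  exact_mod_cast this

theorem prime_1728 {p : ℕ} (hp : p.Prime) (h5 : 5 ≤ p) : ¬ (p : ℤ) ∣ 1728 := by
  intro h
  have h1 : p ∣ 1728 := by exact_mod_cast h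
  rw [show (1728 : ℕ) = 2 ^ 6 * 3 ^ 3 by norm_num] at h1
  rcases hp.dvd_mul.1 h1 with h2 | h2
  · have := Nat.le_of_dvd (by norm_num) (hp.dvd_of_dvd_pow h2)
    omega
  · have := Nat.le_of_dvd (by norm_num) (hp.dvd_of_dvd_pow h2)
    omega

theorem cop (j : ℚ) {p : ℕ} (hp : p.Prime) : ¬ ((p : ℤ) ∣ j.num ∧ (p : ℤ) ∣ (j.den : ℤ)) := by
  rintro ⟨h1, h2⟩
  have h3 : p ∣ j.num.natAbs := Int.natCast_dvd.1 h1
  have h4 : p ∣ j.den := by exact_mod_cast h2
  have := Nat.dvd_gcd h3 h4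
  rw [j.reduced] at this
  exact hp.one_lt.ne' (Nat.dvd_one.1 this)

/-- The primes `≥ 5` dividing the numbers of `j` and of `q`. -/
theorem primes {j q : ℚ} (h : j = 1728 * q) {p : ℕ} (hp : p.Prime) (h5 : 5 ≤ p) :
    ((p : ℤ) ∣ j.num ↔ (p : ℤ) ∣ q.num) ∧ ((p : ℤ) ∣ (j.den : ℤ) ↔ (p : ℤ) ∣ (q.den : ℤ)) ∧
      ((p : ℤ) ∣ j.num - 1728 * (j.den : ℤ) ↔ (p : ℤ) ∣ q.num - (q.den : ℤ)) := by
  have hpi : Prime (p : ℤ) := Nat.prime_iff_prime_int.1 hp
  have e := eqs h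
  have h17 := prime_1728 hp h5
  have cj := cop j hp
  have cq := cop q hp
  have e2 : (j.num - 1728 * (j.den : ℤ)) * (q.den : ℤ) =
      1728 * (q.num - (q.den : ℤ)) * (j.den : ℤ) := by linear_combination e
  have a1 : (p : ℤ) ∣ j.num → (p : ℤ) ∣ q.num := by
    intro h1
    have h2 : (p : ℤ) ∣ 1728 * q.num * (j.den : ℤ) := e ▸ h1.mul_right _
    rcases hpi.dvd_or_dvd h2 with h3 | h3
    · exact (hpi.dvd_or_dvd h3).resolve_left h17
    · exact absurd ⟨h1, h3⟩ cj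
  have a2 : (p : ℤ) ∣ q.num → (p : ℤ) ∣ j.num := by
    intro h1
    have h2 : (p : ℤ) ∣ j.num * (q.den : ℤ) := by
      rw [e]; exact (h1.mul_left _).mul_right _
    rcases hpi.dvd_or_dvd h2 with h3 | h3
    · exact h3
    · exact absurd ⟨h1, h3⟩ cq
  have b1 : (p : ℤ) ∣ (j.den : ℤ) → (p : ℤ) ∣ (q.den : ℤ) := by
    intro h1
    have h2 : (p : ℤ) ∣ j.num * (q.den : ℤ) := by
      rw [e]; exact h1.mul_left _
    rcases hpi.dvd_or_dvd h2 with h3 | h3
    · exact absurd ⟨h3, h1⟩ cj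
    · exact h3
  have b2 : (p : ℤ) ∣ (q.den : ℤ) → (p : ℤ) ∣ (j.den : ℤ) := by
    intro h1
    have h2 : (p : ℤ) ∣ 1728 * q.num * (j.den : ℤ) := e ▸ h1.mul_left _
    rcases hpi.dvd_or_dvd h2 with h3 | h3
    · exact absurd ⟨(hpi.dvd_or_dvd h3).resolve_left h17, h1⟩ cq
    · exact h3
  refine ⟨⟨a1, a2⟩, ⟨b1, b2⟩, ⟨fun h1 => ?_, fun h1 => ?_⟩⟩
  · have h2 : (p : ℤ) ∣ 1728 * (q.num - (q.den : ℤ)) * (j.den : ℤ) := e2 ▸ h1.mul_right _
    rcases hpi.dvd_or_dvd h2 with h3 | h3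
    · exact (hpi.dvd_or_dvd h3).resolve_left h17
    · refine absurd ⟨?_, h3⟩ cj
      have h4 : (p : ℤ) ∣ 1728 * (j.den : ℤ) := h3.mul_left _
      have := dvd_add h1 h4
      simpa using this
  · have h2 : (p : ℤ) ∣ (j.num - 1728 * (j.den : ℤ)) * (q.den : ℤ) := by
      rw [e2]; exact (h1.mul_left _).mul_right _
    rcases hpi.dvd_or_dvd h2 with h3 | h3
    · exact h3
    · refine absurd ⟨?_, h3⟩ cq
      have := dvd_add h1 h3
      simpa using this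

/-- The number whose radical is that of the triple. -/
def RQ (q : ℚ) : ℕ := q.num.natAbs * (q.num - (q.den : ℤ)).natAbs * q.den

theorem key {j q : ℚ} (h : j = 1728 * q) (h0 : j ≠ 0) (h1 : j ≠ 1728) :
    radical (RQ q) ≤ 6 * radJ j ∧ radJ j ≤ 6 * radical (RQ q) ∧
      Ht j ≤ 1728 * max q.num.natAbs q.den := by
  have hq0 : q ≠ 0 := by
    rintro rfl; exact h0 (by rw [h, mul_zero])
  have hq1 : q ≠ 1 := by
    rintro rfl; exact h1 (by rw [h, mul_one])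
  have hqn : q.num ≠ 0 := Rat.num_ne_zero.2 hq0
  have hjn : j.num ≠ 0 := Rat.num_ne_zero.2 h0
  have hqd : q.den ≠ 0 := q.den_nz
  have hjd : j.den ≠ 0 := j.den_nz
  have hqs : q.num - (q.den : ℤ) ≠ 0 := by
    intro hs
    apply hq1
    have h2 : q.num = (q.den : ℤ) := by omega
    have h3 : (q.num : ℚ) = q * q.den := (Rat.mul_den_eq_num q).symm
    rw [h2] at h3
    have h4 : ((q.den : ℤ) : ℚ) ≠ 0 := by exact_mod_cast hqd
    push_cast at h3 h4
    exact mul_right_cancel₀ h4 (by rw [one_mul]; exact h3.symm)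
  have hjs : j.num - 1728 * (j.den : ℤ) ≠ 0 := by
    intro hs
    apply h1
    have h2 : j.num = 1728 * (j.den : ℤ) := by omega
    have h3 : (j.num : ℚ) = j * j.den := (Rat.mul_den_eq_num j).symm
    rw [h2] at h3
    have h4 : ((j.den : ℤ) : ℚ) ≠ 0 := by exact_mod_cast hjd
    push_cast at h3 h4
    exact mul_right_cancel₀ h4 h3.symm
  have hA : RQ q ≠ 0 := by
    unfold RQ
    exact mul_ne_zero (mul_ne_zero (Int.natAbs_ne_zero.2 hqn) (Int.natAbs_ne_zero.2 hqs)) hqd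
  have hB : n1 j * n3 j * j.den ≠ 0 :=
    mul_ne_zero (mul_ne_zero (Int.natAbs_ne_zero.2 hjn) (Int.natAbs_ne_zero.2 hjs)) hjd
  have hmem : ∀ p : ℕ, p.Prime → 5 ≤ p → (p ∣ RQ q ↔ p ∣ n1 j * n3 j * j.den) := by
    intro p hp h5
    obtain ⟨e1, e2, e3⟩ := primes h hp h5
    unfold RQ n1 n3
    rw [hp.dvd_mul, hp.dvd_mul, hp.dvd_mul, hp.dvd_mul, ← Int.natCast_dvd, ← Int.natCast_dvd,
      ← Int.natCast_dvd, ← Int.natCast_dvd, e1, e3, ← Int.natCast_dvd_natCast,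
      ← Int.natCast_dvd_natCast, e2]
  refine ⟨radical_le hB fun p hp h5 hd => (hmem p hp h5).1 hd,
    radical_le hA fun p hp h5 hd => (hmem p hp h5).2 hd, ?_⟩
  have e := eqs h
  have e' : j.num.natAbs * q.den = 1728 * q.num.natAbs * j.den := by
    have := congrArg Int.natAbs e
    rw [Int.natAbs_mul, Int.natAbs_mul, Int.natAbs_mul] at this
    simpa using this
  have d1 : j.num.natAbs ∣ 1728 * q.num.natAbs :=
    Nat.Coprime.dvd_of_dvd_mul_right j.reduced ⟨q.den, e'.symm⟩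
  have d2 : j.den ∣ q.den := by
    have : j.den ∣ j.num.natAbs * q.den := ⟨1728 * q.num.natAbs, by rw [e']; ring⟩
    exact Nat.Coprime.dvd_of_dvd_mul_left j.reduced.symm this
  have l1 := Nat.le_of_dvd (Nat.mul_pos (by norm_num) (Int.natAbs_pos.2 hqn)) d1
  have l2 := Nat.le_of_dvd q.den_pos d2
  have l3 := le_max_left q.num.natAbs q.den
  have l4 := le_max_right q.num.natAbs q.den
  unfold Ht n1
  exact max_le (by omega) (by omega)

/-- The six ratios of a triple. -/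
def six : Fin 6 → ℕ × ℕ → ℚ :=
  ![fun p => 1728 * (p.1 / (p.1 + p.2)), fun p => 1728 * (p.2 / (p.1 + p.2)),
    fun p => 1728 * ((p.1 + p.2) / p.1), fun p => 1728 * ((p.1 + p.2) / p.2),
    fun p => 1728 * (-p.1 / p.2), fun p => 1728 * (-p.2 / p.1)]

/-- Sorting. -/
theorem cover_aux {j q : ℚ} (h : j = 1728 * q) (h0 : j ≠ 0) (h1 : j ≠ 1728) (u v : ℕ)
    (hu : 0 < u) (hv : 0 < v) (hc : Nat.Coprime u v) (hR : RQ q = u * v * (u + v))
    (hm : max q.num.natAbs q.den ≤ u + v) (i i' : Fin 6) (hi : j = six i (u, v))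
    (hi' : j = six i' (v, u)) :
    ∃ p : ℕ × ℕ, p ∈ tri (6 * radJ j) ∧ Ht j ≤ 1728 * (p.1 + p.2) ∧ ∃ i, j = six i p := by
  obtain ⟨k1, -, k3⟩ := key h h0 h1
  rcases le_total u v with huv | huv
  · refine ⟨(u, v), ⟨hu, huv, hc, ?_⟩, ?_, i, hi⟩
    · rw [← hR]; exact_mod_cast k1
    · exact k3.trans (Nat.mul_le_mul le_rfl hm)
  · refine ⟨(v, u), ⟨hv, huv, hc.symm, ?_⟩, ?_, i', hi'⟩
    · show (radical (v * u * (v + u)) : ℝ) ≤ _
      rw [mul_comm v u, add_comm v u, ← hR]; exact_mod_cast k1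
    · show _ ≤ 1728 * (v + u)
      rw [add_comm v u]
      exact k3.trans (Nat.mul_le_mul le_rfl hm)

theorem cover (j : ℚ) (h0 : j ≠ 0) (h1 : j ≠ 1728) :
    ∃ p : ℕ × ℕ, p ∈ tri (6 * radJ j) ∧ Ht j ≤ 1728 * (p.1 + p.2) ∧ ∃ i, j = six i p := by
  obtain ⟨q, h⟩ : ∃ q : ℚ, j = 1728 * q := ⟨j / 1728, by ring⟩
  have hq0 : q ≠ 0 := by
    rintro rfl; exact h0 (by rw [h, mul_zero])
  have hq1 : q ≠ 1 := by
    rintro rfl; exact h1 (by rw [h, mul_one])
  have hqn : q.num ≠ 0 := Rat.num_ne_zero.2 hq0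
  have hd := q.den_pos
  have hred := q.reduced
  have hqq : q = (q.num : ℚ) / (q.den : ℚ) := (Rat.num_div_den q).symm
  have hdq : (q.den : ℚ) ≠ 0 := by exact_mod_cast hd.ne'
  have hne : q.num ≠ (q.den : ℤ) := by
    intro hs
    apply hq1
    rw [hqq, hs]
    push_cast
    exact div_self hdq
  obtain ⟨d, hdd⟩ : ∃ d, d = q.den := ⟨_, rfl⟩
  obtain ⟨n, hnn⟩ : ∃ n, n = q.num := ⟨_, rfl⟩
  rw [← hdd] at hd hred hqq hdq hne
  rw [← hnn] at hqn hred hqq hne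
  have hRQ : RQ q = n.natAbs * (n - (d : ℤ)).natAbs * d := by rw [RQ, hdd, hnn]
  have hmax : max q.num.natAbs q.den = max n.natAbs d := by rw [hdd, hnn]
  rcases lt_or_gt_of_ne hqn with hneg | hpos
  · -- q = - u / v
    obtain ⟨u, hu⟩ : ∃ u : ℕ, n = -(u : ℤ) := ⟨n.natAbs, by omega⟩
    have hu0 : 0 < u := by omega
    have hna : n.natAbs = u := by omega
    rw [hna] at hred hRQ hmax
    have hsub : (n - (d : ℤ)).natAbs = u + d := by omega
    rw [hsub] at hRQ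
    refine cover_aux h h0 h1 u d hu0 hd hred (by rw [hRQ]; ring)
      (by rw [hmax]; exact max_le (by omega) (by omega)) 4 5 ?_ ?_
    · rw [h, hqq, hu]; simp [six]
    · rw [h, hqq, hu]; simp [six]
  · obtain ⟨u, hu⟩ : ∃ u : ℕ, n = (u : ℤ) := ⟨n.natAbs, by omega⟩
    have hu0 : 0 < u := by omega
    have hna : n.natAbs = u := by omega
    rw [hna] at hred hRQ hmax
    rcases lt_or_gt_of_ne hne with hlt | hgt
    · -- q = u / (u + v)
      obtain ⟨v, hv⟩ : ∃ v : ℕ, d = u + v := ⟨d - u, by omega⟩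
      have hv0 : 0 < v := by omega
      have hsub : (n - (d : ℤ)).natAbs = v := by omega
      rw [hsub, hv] at hRQ
      have hcop : Nat.Coprime u v := by
        rw [hv] at hred
        simpa using hred
      refine cover_aux h h0 h1 u v hu0 hv0 hcop hRQ
        (by rw [hmax]; exact max_le (by omega) (by omega)) 0 1 ?_ ?_
      · rw [h, hqq, hu, hv]; simp [six]
      · rw [h, hqq, hu, hv]; simp [six, add_comm]
    · -- q = (u + v) / u
      obtain ⟨v, hv⟩ : ∃ v : ℕ, u = d + v := ⟨u - d, by omega⟩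
      have hv0 : 0 < v := by omega
      have hsub : (n - (d : ℤ)).natAbs = v := by omega
      rw [hsub, hv] at hRQ
      have hcop : Nat.Coprime d v := by
        rw [hv] at hred
        have := hred.symm
        simpa using this
      refine cover_aux h h0 h1 d v hd hv0 hcop (by rw [hRQ]; ring)
        (by rw [hmax]; exact max_le (by omega) (by omega)) 2 3 ?_ ?_
      · rw [h, hqq, hu, hv]; simp [six]
      · rw [h, hqq, hu, hv]; simp [six, add_comm]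

/-- The invariant of a triple. -/
def inv (p : ℕ × ℕ) : ℚ := 1728 * (((p.1 + p.2 : ℕ) : ℚ) / (p.2 : ℚ))

theorem inv_mem {X : ℝ} {p : ℕ × ℕ} (hp : p ∈ tri X) : inv p ∈ Y728.SZ.Inv (6 * X) := by
  obtain ⟨h1, h2, h3, h4⟩ := hp
  have hb : 0 < p.2 := by omega
  have hcop : Nat.Coprime (p.1 + p.2) p.2 := by simpa using h3
  have hq : (((p.1 + p.2 : ℕ) : ℚ) / (p.2 : ℚ)).num = ((p.1 + p.2 : ℕ) : ℤ) ∧
      (((p.1 + p.2 : ℕ) : ℚ) / (p.2 : ℚ)).den = p.2 := by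
    have e1 := Rat.num_div_eq_of_coprime (a := ((p.1 + p.2 : ℕ) : ℤ)) (b := (p.2 : ℤ))
      (by exact_mod_cast hb) hcop
    have e2 := Rat.den_div_eq_of_coprime (a := ((p.1 + p.2 : ℕ) : ℤ)) (b := (p.2 : ℤ))
      (by exact_mod_cast hb) hcop
    refine ⟨by simpa using e1, ?_⟩
    have e3 : ((((((p.1 + p.2 : ℕ) : ℤ) : ℚ) / ((p.2 : ℤ) : ℚ)).den : ℕ) : ℤ) = (p.2 : ℤ) := e2
    have e4 : (((((p.1 + p.2 : ℕ) : ℤ) : ℚ) / ((p.2 : ℤ) : ℚ)).den : ℕ) = p.2 := by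
      exact_mod_cast e3
    simpa using e4
  obtain ⟨q1, q2⟩ := hq
  have hbq : (0 : ℚ) < p.2 := by exact_mod_cast hb
  have haq : (0 : ℚ) < p.1 := by exact_mod_cast h1
  have h0 : inv p ≠ 0 := by
    unfold inv; push_cast; positivity
  have h17 : inv p ≠ 1728 := by
    unfold inv
    intro h
    have h5 : (((p.1 + p.2 : ℕ) : ℚ) / (p.2 : ℚ)) = 1 := by linarith
    rw [div_eq_one_iff_eq hbq.ne'] at h5
    push_cast at h5
    linarith
  refine ⟨h0, h17, ?_⟩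
  obtain ⟨-, k2, -⟩ := key (j := inv p) rfl h0 h17
  have hR : RQ (((p.1 + p.2 : ℕ) : ℚ) / (p.2 : ℚ)) = p.1 * p.2 * (p.1 + p.2) := by
    rw [RQ, q1, q2]
    have : (((p.1 + p.2 : ℕ) : ℤ) - (p.2 : ℤ)).natAbs = p.1 := by omega
    rw [this, Int.natAbs_natCast]
    ring
  rw [hR] at k2
  show (radJ (inv p) : ℝ) ≤ 6 * X
  have k2' : (radJ (inv p) : ℝ) ≤ 6 * (radical (p.1 * p.2 * (p.1 + p.2)) : ℝ) := by
    exact_mod_cast k2
  linarith

theorem inv_inj {X : ℝ} : Set.InjOn inv (tri X) := by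
  rintro ⟨a, b⟩ hp ⟨a', b'⟩ hp' h
  obtain ⟨h1, h2, h3, -⟩ := hp
  obtain ⟨h1', h2', h3', -⟩ := hp'
  simp only at h1 h2 h3 h1' h2' h3'
  have hb : 0 < b := by omega
  have hb' : 0 < b' := by omega
  have hbq : (b : ℚ) ≠ 0 := by exact_mod_cast hb.ne'
  have hbq' : (b' : ℚ) ≠ 0 := by exact_mod_cast hb'.ne'
  simp only [inv] at h
  push_cast at h
  have h5 : ((a : ℚ) + b) / b = (a' + b') / b' := by linarith
  rw [div_eq_div_iff hbq hbq'] at h5
  have h6 : a * b' = a' * b := by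
    have : (a : ℚ) * b' = a' * b := by linarith
    exact_mod_cast this
  have d1 : a ∣ a' := Nat.Coprime.dvd_of_dvd_mul_right h3 ⟨b', h6.symm⟩
  have d2 : a' ∣ a := Nat.Coprime.dvd_of_dvd_mul_right h3' ⟨b, h6⟩
  have e1 : a = a' := Nat.dvd_antisymm d1 d2
  subst e1
  have e2 : b = b' := (Nat.eq_of_mul_eq_mul_left h1 h6).symm
  rw [e2]

theorem card_six {S : Set (ℕ × ℕ)} (hS : S.Finite) {A : Set ℚ}
    (hA : ∀ j ∈ A, ∃ p ∈ S, ∃ i, j = six i p) : A.Finite ∧ A.ncard ≤ 6 * S.ncard := by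
  have hfin : ((Set.univ : Set (Fin 6)) ×ˢ S).Finite := Set.finite_univ.prod hS
  have hsub : A ⊆ (fun x : Fin 6 × (ℕ × ℕ) => six x.1 x.2) '' ((Set.univ : Set (Fin 6)) ×ˢ S) := by
    intro j hj
    obtain ⟨p, hp, i, hi⟩ := hA j hj
    exact ⟨(i, p), ⟨Set.mem_univ _, hp⟩, hi.symm⟩
  refine ⟨(hfin.image _).subset hsub, ?_⟩
  calc A.ncard ≤ _ := Set.ncard_le_ncard hsub (hfin.image _)
    _ ≤ ((Set.univ : Set (Fin 6)) ×ˢ S).ncard := Set.ncard_image_le hfin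
    _ = 6 * S.ncard := by
        rw [Set.ncard_prod, Set.ncard_univ, Nat.card_eq_fintype_card, Fintype.card_fin]

theorem Ht_pos (j : ℚ) : 1 ≤ Ht j := le_trans j.den_pos (le_max_right _ _)

theorem tri_mono {X Y : ℝ} (h : X ≤ Y) : tri X ⊆ tri Y :=
  fun _ hp => ⟨hp.1, hp.2.1, hp.2.2.1, hp.2.2.2.trans h⟩

theorem core (hfin : ∀ X : ℝ, (tri X).Finite)
    (hlim : ∃ κ : ℝ, 0 < κ ∧
      Tendsto (fun X : ℝ => ((tri X).ncard : ℝ) / X ^ ((2 : ℝ) / 3)) atTop (𝓝 κ))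
    (hexc : ∀ M : ℝ, 1 / 3 < M → ∃ ν C : ℝ, 0 < ν ∧ 0 < C ∧ ∀ X : ℝ, 1 ≤ X →
      ({p | p ∈ tri X ∧ (radical (p.1 * p.2 * (p.1 + p.2)) : ℝ) ^ M ≤
        ((p.1 + p.2 : ℕ) : ℝ)}.ncard : ℝ) ≤ C * X ^ (2 / 3 - ν)) : StmtCount := by
  have hcov : ∀ X : ℝ, ∀ j ∈ Inv X, ∃ p ∈ tri (6 * X), Ht j ≤ 1728 * (p.1 + p.2) ∧
      (radical (p.1 * p.2 * (p.1 + p.2)) : ℝ) ≤ 6 * radJ j ∧ ∃ i, j = six i p := by
    intro X j hj
    obtain ⟨p, hp, h1, h2⟩ := cover j hj.1 hj.2.1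
    exact ⟨p, tri_mono (by have := hj.2.2; linarith) hp, h1, hp.2.2.2, h2⟩
  have hInv : ∀ X : ℝ, (Inv X).Finite ∧ (Inv X).ncard ≤ 6 * (tri (6 * X)).ncard := by
    intro X
    refine card_six (hfin _) fun j hj => ?_
    obtain ⟨p, hp, -, -, h⟩ := hcov X j hj
    exact ⟨p, hp, h⟩
  refine ⟨?_, ?_⟩
  · obtain ⟨κ, hκ, ht⟩ := hlim
    have hup := ht.eventually (gt_mem_nhds (show κ < 2 * κ by linarith))
    have hlo := ht.eventually (lt_mem_nhds (show κ / 2 < κ by linarith))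
    obtain ⟨X1, hX1⟩ := (hup.and hlo).exists_forall_of_atTop
    obtain ⟨X2, hX2⟩ : ∃ X2 : ℝ, X2 = max X1 6 := ⟨_, rfl⟩
    have hX26 : 6 ≤ X2 := by rw [hX2]; exact le_max_right _ _
    have hX21 : X1 ≤ X2 := by rw [hX2]; exact le_max_left _ _
    refine ⟨κ / 2 * (1 / 6 : ℝ) ^ ((2 : ℝ) / 3),
      6 * (2 * κ * (6 : ℝ) ^ ((2 : ℝ) / 3) + (tri X2).ncard), 6 * X2, by positivity, by positivity,
      fun X hX => ⟨(hInv X).1, ?_⟩, fun X hX => ?_⟩
    · have h1 : ((Inv X).ncard : ℝ) ≤ 6 * (tri (6 * X)).ncard := by exact_mod_cast (hInv X).2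
      have hXp : 1 ≤ X ^ ((2 : ℝ) / 3) := Real.one_le_rpow hX (by norm_num)
      have hn : (0 : ℝ) ≤ (tri X2).ncard := Nat.cast_nonneg _
      have hpos6 : 0 < 2 * κ * (6 : ℝ) ^ ((2 : ℝ) / 3) := by positivity
      have h2 : ((tri (6 * X)).ncard : ℝ) ≤
          (2 * κ * (6 : ℝ) ^ ((2 : ℝ) / 3) + (tri X2).ncard) * X ^ ((2 : ℝ) / 3) := by
        rcases le_total X2 (6 * X) with h | h
        · have h3 := (hX1 (6 * X) (hX21.trans h)).1
          have hpos : 0 < (6 * X) ^ ((2 : ℝ) / 3) := by positivity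
          rw [div_lt_iff₀ hpos, Real.mul_rpow (by norm_num) (by linarith)] at h3
          nlinarith [mul_nonneg hn (le_trans zero_le_one hXp)]
        · have h3 : ((tri (6 * X)).ncard : ℝ) ≤ (tri X2).ncard := by
            exact_mod_cast Set.ncard_le_ncard (tri_mono h) (hfin _)
          nlinarith [mul_le_mul_of_nonneg_left hXp hn, mul_nonneg hpos6.le
            (le_trans zero_le_one hXp)]
      calc ((Inv X).ncard : ℝ) ≤ 6 * (tri (6 * X)).ncard := h1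
        _ ≤ 6 * ((2 * κ * (6 : ℝ) ^ ((2 : ℝ) / 3) + (tri X2).ncard) * X ^ ((2 : ℝ) / 3)) := by
            linarith
        _ = _ := by ring
    · have hX0 : 0 < X := by linarith
      have h3 := (hX1 (X / 6) (hX21.trans (by rw [le_div_iff₀ (by norm_num)]; linarith))).2
      have hpos : 0 < (X / 6) ^ ((2 : ℝ) / 3) := by positivity
      rw [lt_div_iff₀ hpos] at h3
      have h4 : ((tri (X / 6)).ncard : ℝ) ≤ (Inv X).ncard := by
        have : (tri (X / 6)).ncard ≤ (Inv X).ncard := by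
          rw [← Set.InjOn.ncard_image (inv_inj (X := X / 6))]
          refine Set.ncard_le_ncard ?_ (hInv X).1
          rintro _ ⟨p, hp, rfl⟩
          have := inv_mem hp
          rwa [show 6 * (X / 6) = X by ring] at this
        exact_mod_cast this
      have h5 : (X / 6) ^ ((2 : ℝ) / 3) = (1 / 6 : ℝ) ^ ((2 : ℝ) / 3) * X ^ ((2 : ℝ) / 3) := by
        rw [show X / 6 = 1 / 6 * X by ring, Real.mul_rpow (by norm_num) hX0.le]
      rw [h5] at h3
      calc κ / 2 * (1 / 6 : ℝ) ^ ((2 : ℝ) / 3) * X ^ ((2 : ℝ) / 3)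
          = κ / 2 * ((1 / 6 : ℝ) ^ ((2 : ℝ) / 3) * X ^ ((2 : ℝ) / 3)) := by ring
        _ ≤ _ := h3.le.trans h4
  · intro κ hκ
    obtain ⟨k, hk⟩ : ∃ k : ℝ, k = min κ 1 := ⟨_, rfl⟩
    have hk0 : 0 < k := by rw [hk]; exact lt_min hκ one_pos
    have hk1 : k ≤ 1 := by rw [hk]; exact min_le_right _ _
    have hkκ : k ≤ κ := by rw [hk]; exact min_le_left _ _
    obtain ⟨M, hM⟩ : ∃ M : ℝ, M = 1 / (3 - k / 2) := ⟨_, rfl⟩
    have hden : 0 < 3 - k / 2 := by linarith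
    have hM3 : 1 / 3 < M := by
      rw [hM, div_lt_div_iff₀ (by norm_num) hden]
      linarith
    have hM0 : 0 < M := by linarith
    have hMd : M * (3 - k / 2) = 1 := by rw [hM, one_div, inv_mul_cancel₀ hden.ne']
    obtain ⟨ν₀, C₀, hν₀, hC₀, hb⟩ := hexc M hM3
    obtain ⟨δ, hδ⟩ : ∃ δ : ℝ, δ = 1 - (3 - k) * M := ⟨_, rfl⟩
    have hδ0 : 0 < δ := by
      have : δ = M * (k / 2) := by rw [hδ]; linarith
      rw [this]; positivity
    obtain ⟨K, hK⟩ : ∃ K : ℝ, K = (6 * (1728 : ℝ) ^ (3 - k)) ^ M := ⟨_, rfl⟩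
    have hK0 : 0 < K := by rw [hK]; positivity
    obtain ⟨c0, hc0⟩ := exists_nat_ge (K ^ (1 / δ))
    obtain ⟨B, hB⟩ : ∃ B : Set (ℕ × ℕ), B = {p | p.1 + p.2 ≤ c0} := ⟨_, rfl⟩
    have hBf : B.Finite := by
      rw [hB]
      refine (Set.finite_Iic ((c0, c0) : ℕ × ℕ)).subset fun p hp => ?_
      have : p.1 + p.2 ≤ c0 := hp
      exact ⟨show p.1 ≤ c0 by omega, show p.2 ≤ c0 by omega⟩
    obtain ⟨ν, hν⟩ : ∃ ν : ℝ, ν = min ν₀ (2 / 3) := ⟨_, rfl⟩
    have hν0 : 0 < ν := by rw [hν]; exact lt_min hν₀ (by norm_num)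
    have hν1 : ν ≤ 2 / 3 := by rw [hν]; exact min_le_right _ _
    have hν2 : ν ≤ ν₀ := by rw [hν]; exact min_le_left _ _
    refine ⟨ν, 6 * (C₀ * (6 : ℝ) ^ (2 / 3 - ν) + B.ncard), hν0, by positivity, fun X hX => ?_⟩
    obtain ⟨E, hE⟩ : ∃ E : Set (ℕ × ℕ), E = {p | p ∈ tri (6 * X) ∧
      (radical (p.1 * p.2 * (p.1 + p.2)) : ℝ) ^ M ≤ ((p.1 + p.2 : ℕ) : ℝ)} := ⟨_, rfl⟩
    have hEf : E.Finite := by
      rw [hE]; exact (hfin (6 * X)).subset fun p hp => hp.1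
    have hEc : (E.ncard : ℝ) ≤ C₀ * ((6 : ℝ) ^ (2 / 3 - ν) * X ^ (2 / 3 - ν)) := by
      have h1 := hb (6 * X) (by linarith)
      rw [← hE] at h1
      refine h1.trans (mul_le_mul_of_nonneg_left ?_ hC₀.le)
      rw [← Real.mul_rpow (by norm_num) (by linarith)]
      exact Real.rpow_le_rpow_of_exponent_le (by linarith) (by linarith)
    have hmain : ∀ j ∈ {j : ℚ | j ∈ Inv X ∧ (radJ j : ℝ) < (Ht j : ℝ) ^ (3 - κ)},
        ∃ p ∈ E ∪ B, ∃ i, j = six i p := by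
      rintro j ⟨hj, hj2⟩
      obtain ⟨p, hp, h1, h2, i, hi⟩ := hcov X j hj
      refine ⟨p, ?_, i, hi⟩
      by_cases hpB : p.1 + p.2 ≤ c0
      · right; rw [hB]; exact hpB
      left
      rw [hE]
      refine ⟨hp, ?_⟩
      rw [not_le] at hpB
      obtain ⟨c, hc⟩ : ∃ c : ℝ, c = ((p.1 + p.2 : ℕ) : ℝ) := ⟨_, rfl⟩
      have hcK : K ^ (1 / δ) < c := by
        rw [hc]
        exact lt_of_le_of_lt hc0 (by exact_mod_cast hpB)
      have hc0' : 0 < c := lt_trans (by positivity) hcK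
      have hH1 : (1 : ℝ) ≤ Ht j := by exact_mod_cast Ht_pos j
      have hHc : (Ht j : ℝ) ≤ 1728 * c := by rw [hc]; exact_mod_cast h1
      have hr : (radical (p.1 * p.2 * (p.1 + p.2)) : ℝ) ≤
          6 * (1728 : ℝ) ^ (3 - k) * c ^ (3 - k) := by
        calc (radical (p.1 * p.2 * (p.1 + p.2)) : ℝ) ≤ 6 * radJ j := h2
          _ ≤ 6 * (Ht j : ℝ) ^ (3 - κ) := by linarith
          _ ≤ 6 * (Ht j : ℝ) ^ (3 - k) := by
              have := Real.rpow_le_rpow_of_exponent_le hH1 (show 3 - κ ≤ 3 - k by linarith)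
              linarith
          _ ≤ 6 * (1728 * c) ^ (3 - k) := by
              have := Real.rpow_le_rpow (by linarith) hHc (show 0 ≤ 3 - k by linarith)
              linarith
          _ = _ := by
              rw [Real.mul_rpow (by norm_num) hc0'.le]; ring
      rw [← hc]
      calc (radical (p.1 * p.2 * (p.1 + p.2)) : ℝ) ^ M
          ≤ (6 * (1728 : ℝ) ^ (3 - k) * c ^ (3 - k)) ^ M :=
            Real.rpow_le_rpow (Nat.cast_nonneg _) hr hM0.le
        _ = K * c ^ ((3 - k) * M) := by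
            rw [Real.mul_rpow (by positivity) (by positivity), ← hK, ← Real.rpow_mul hc0'.le]
        _ ≤ c ^ δ * c ^ ((3 - k) * M) := by
            refine mul_le_mul_of_nonneg_right ?_ (by positivity)
            have := Real.rpow_le_rpow (by positivity) hcK.le hδ0.le
            rwa [← Real.rpow_mul hK0.le, one_div_mul_cancel hδ0.ne', Real.rpow_one] at this
        _ = c := by
            rw [← Real.rpow_add hc0', hδ]
            rw [show 1 - (3 - k) * M + (3 - k) * M = 1 by ring, Real.rpow_one]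
    have hfinal := (card_six (hEf.union hBf) hmain).2
    have hfinal' : ({j : ℚ | j ∈ Inv X ∧ (radJ j : ℝ) < (Ht j : ℝ) ^ (3 - κ)}.ncard : ℝ) ≤
        6 * (E.ncard + B.ncard) := by
      have := (Set.ncard_union_le E B)
      exact_mod_cast hfinal.trans (Nat.mul_le_mul le_rfl this)
    have hXp : 1 ≤ X ^ (2 / 3 - ν) := Real.one_le_rpow hX (by linarith)
    have hBn : (0 : ℝ) ≤ B.ncard := Nat.cast_nonneg _
    calc _ ≤ 6 * ((E.ncard : ℝ) + B.ncard) := hfinal'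
      _ ≤ 6 * (C₀ * ((6 : ℝ) ^ (2 / 3 - ν) * X ^ (2 / 3 - ν)) + B.ncard * X ^ (2 / 3 - ν)) := by
          have := mul_le_mul_of_nonneg_left hXp hBn
          linarith
      _ = _ := by ring

end Pool.Agent.Y421.SZ
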